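import Mathlib
import Pool.Agent.R86.TA3

/-!
Triangle-abundance of families of graphs (Q1, positive answer).

Definitions (file `Pool/Agent/R86/TA1.lean` and `Pool/Agent/R86/TA2.lean`):
* `TA.Gr` is the type of all finite graphs, `Σ k, SimpleGraph (Fin k)`.
* `TA.EpsFar ε G` : `G` cannot be made triangle-free by deleting fewer than `ε n²` edges.
* `TA.ManyTriangles ε G` : `G` has at least `ε n²` pairwise edge-disjoint triangles.
* `TA.GraphAbundant F`, `TA.FamilyAbundant 𝓕` : triangle-abundance of a graph and of a family.
-/

namespace Pool.Agent.Results.MP_02fb88_co.Abundance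

open Pool.Agent.R86

/-- A (finite or infinite) family of graphs is triangle-abundant if and only if some member is a
triangle-abundant graph. -/
theorem result (𝓕 : Set TA.Gr) :
    TA.FamilyAbundant 𝓕 ↔ ∃ F ∈ 𝓕, TA.GraphAbundant F :=
  TA.family_abundant_iff 𝓕

end Pool.Agent.Results.MP_02fb88_co.Abundance
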